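import Mathlib
import Pool.Agent.N757.AS.Stm

/-!
# AS/CMP: compositum of two number fields
-/

set_option autoImplicit false

namespace Pool.Agent.N999.AS.CMP

open Pool.Agent.N757.AS IntermediateField

theorem t : StmCmp := by
  intro k K _ _ _ _
  haveI : Algebra.IsAlgebraic ℚ k := inferInstance
  let M := AlgebraicClosure K
  obtain ⟨θ, hθ⟩ := Field.exists_primitive_element ℚ k
  let f : k →ₐ[ℚ] M := IsAlgClosed.lift
  have hint : IsIntegral K (f θ) :=
    ((Algebra.IsIntegral.isIntegral (R := ℚ) θ).map f).tower_top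
  haveI : FiniteDimensional K K⟮f θ⟯ := IntermediateField.adjoin.finiteDimensional hint
  haveI : CharZero K⟮f θ⟯ := charZero_of_injective_algebraMap (algebraMap K K⟮f θ⟯).injective
  haveI : FiniteDimensional ℚ K⟮f θ⟯ := Module.Finite.trans K K⟮f θ⟯
  haveI : NumberField K⟮f θ⟯ := { }
  have hmem : ∀ x : k, f x ∈ K⟮f θ⟯ := by
    intro x
    have hx : x ∈ (⊤ : IntermediateField ℚ k) := IntermediateField.mem_top
    rw [← hθ] at hx
    have hle : ℚ⟮θ⟯ ≤ ((K⟮f θ⟯).restrictScalars ℚ).comap f := by
      rw [IntermediateField.adjoin_le_iff]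
      intro y hy
      rw [Set.mem_singleton_iff] at hy
      subst hy
      exact IntermediateField.mem_adjoin_simple_self K (f y)
    exact hle hx
  exact ⟨K⟮f θ⟯, inferInstance, inferInstance, inferInstance,
    ⟨f.toRingHom.codRestrict (K⟮f θ⟯).toSubring hmem⟩⟩

end Pool.Agent.N999.AS.CMP
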